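import Mathlib

set_option autoImplicit false

/-!
Decision trees whose tests are signs of integer affine forms in few of the input numbers, and the
adversary argument for them.
-/

namespace Pool.Agent.H636R2.Tests

open MeasureTheory

set_option linter.unusedSectionVars false

variable {ι : Type*} [Fintype ι] [DecidableEq ι]

/-- Decision trees for inputs `x : ι → ℤ`. An inner node `test c r s t u` looks at the sign
of the affine form `∑ i, c i * x i + r`, and continues with `s`, `t` or `u` according to whether
it is negative, zero or positive. -/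
inductive Tree (ι : Type*) : Type _
  | answer (b : Bool) : Tree ι
  | test (c : ι → ℤ) (r : ℤ) (s t u : Tree ι) : Tree ι

/-- The value of the linear form with coefficients `c` at the input `x`. -/
def form (c x : ι → ℤ) : ℤ := ∑ i, c i * x i

/-- The set of input numbers on which a form depends. -/
def support (c : ι → ℤ) : Finset ι := Finset.univ.filter fun i => c i ≠ 0

/-- All tests of the tree are affine forms with at most three nonzero coefficients; these
coefficients are integers of absolute value at most `K`, and the constant terms are integers of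
absolute value at most `L`. -/
def Tree.Allowed (K L : ℕ) : Tree ι → Prop
  | .answer _ => True
  | .test c r s t u => (support c).card ≤ 3 ∧ (∀ i, |c i| ≤ K) ∧ |r| ≤ L ∧
      s.Allowed K L ∧ t.Allowed K L ∧ u.Allowed K L

/-- The answer given by a tree on the input `x`. -/
def Tree.eval : Tree ι → (ι → ℤ) → Bool
  | .answer b, _ => b
  | .test c r s t u, x =>
      if form c x + r < 0 then s.eval x else if form c x + r = 0 then t.eval x else u.eval x

/-- The number of tests made by a tree on the input `x`. -/
def Tree.cost : Tree ι → (ι → ℤ) → ℕ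
  | .answer _, _ => 0
  | .test c r s t u, x =>
      1 + if form c x + r < 0 then s.cost x else if form c x + r = 0 then t.cost x else u.cost x

/-- The supports of the forms tested on the path of `x`. -/
def Tree.path : Tree ι → (ι → ℤ) → List (Finset ι)
  | .answer _, _ => []
  | .test c r s t u, x => support c ::
      (if form c x + r < 0 then s.path x else if form c x + r = 0 then t.path x else u.path x)

theorem Tree.path_length (T : Tree ι) (x : ι → ℤ) : (T.path x).length = T.cost x := by
  induction T with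
  | answer b => rfl
  | test c r s t u hs ht hu =>
    simp only [Tree.path, Tree.cost, List.length_cons]
    split_ifs <;> omega

/-- If the signs of all allowed forms whose support is not `F` agree at `x` and `y`, then the tree
gives the same answer on `x` and on `y`, or `F` is the support of a form on the path of `x`. -/
theorem Tree.eval_eq {K L : ℕ} (T : Tree ι) (hT : T.Allowed K L) (x y : ι → ℤ)
    (F : Finset ι)
    (h : ∀ (c : ι → ℤ) (r : ℤ), (support c).card ≤ 3 → (∀ i, |c i| ≤ K) → |r| ≤ L →
      support c ≠ F → Int.sign (form c x + r) = Int.sign (form c y + r))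
    (hF : F ∉ T.path x) : T.eval x = T.eval y := by
  induction T with
  | answer b => rfl
  | test c r s t u hs ht hu =>
    simp only [Tree.Allowed] at hT
    obtain ⟨h3, hK, hL, hsA, htA, huA⟩ := hT
    simp only [Tree.path, List.mem_cons, not_or] at hF
    obtain ⟨hF1, hF2⟩ := hF
    have hsign := h c r h3 hK hL (fun h' => hF1 h'.symm)
    simp only [Tree.eval]
    rcases lt_trichotomy (form c x + r) 0 with hx | hx | hx
    · have hy : form c y + r < 0 := by
        rw [Int.sign_eq_neg_one_of_neg hx] at hsign
        exact Int.sign_eq_neg_one_iff_neg.1 hsign.symm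
      rw [if_pos hx, if_pos hy]
      rw [if_pos hx] at hF2
      exact hs hsA hF2
    · have hy : form c y + r = 0 := by
        rw [hx, Int.sign_zero] at hsign
        exact Int.sign_eq_zero_iff_zero.1 hsign.symm
      have hx' : ¬ form c x + r < 0 := by omega
      have hy' : ¬ form c y + r < 0 := by omega
      rw [if_neg hx', if_pos hx, if_neg hy', if_pos hy]
      rw [if_neg hx', if_pos hx] at hF2
      exact ht htA hF2
    · have hy : 0 < form c y + r := by
        rw [Int.sign_eq_one_of_pos hx] at hsign
        exact Int.sign_eq_one_iff_pos.1 hsign.symm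
      have hx' : ¬ form c x + r < 0 := by omega
      have hy' : ¬ form c y + r < 0 := by omega
      have hx2 : ¬ form c x + r = 0 := by omega
      have hy2 : ¬ form c y + r = 0 := by omega
      rw [if_neg hx', if_neg hx2, if_neg hy', if_neg hy2]
      rw [if_neg hx', if_neg hx2] at hF2
      exact hu huA hF2

theorem sum_support (c g : ι → ℤ) : ∑ p, c p * g p = ∑ p ∈ support c, c p * g p := by
  rw [support, Finset.sum_filter]
  refine Finset.sum_congr rfl fun p _ => ?_
  by_cases h : c p = 0 <;> simp [h]

theorem abs_sum_le {K : ℕ} (c g : ι → ℤ) (B : ℤ) (hB : 0 ≤ B) (h3 : (support c).card ≤ 3)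
    (hK : ∀ i, |c i| ≤ K) (hg : ∀ i, |g i| ≤ B) : |∑ p, c p * g p| ≤ 3 * K * B := by
  rw [sum_support]
  calc |∑ p ∈ support c, c p * g p| ≤ ∑ p ∈ support c, |c p * g p| :=
        Finset.abs_sum_le_sum_abs _ _
    _ ≤ ∑ p ∈ support c, (K : ℤ) * B := by
        refine Finset.sum_le_sum fun p _ => ?_
        rw [abs_mul]
        exact mul_le_mul (hK p) (hg p) (abs_nonneg _) (by positivity)
    _ = (support c).card * ((K : ℤ) * B) := by rw [Finset.sum_const, nsmul_eq_mul]
    _ ≤ 3 * ((K : ℤ) * B) := by
        refine mul_le_mul_of_nonneg_right (by exact_mod_cast h3) (by positivity)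
    _ = 3 * K * B := by ring

theorem sign_of_dominant (M a b : ℤ) (ha : a ≠ 0) (hb : |b| < M) :
    Int.sign (M * a + b) = Int.sign a := by
  rw [abs_lt] at hb
  rcases lt_or_gt_of_ne ha with h | h
  · rw [Int.sign_eq_neg_one_of_neg h, Int.sign_eq_neg_one_iff_neg]
    nlinarith
  · rw [Int.sign_eq_one_of_pos h, Int.sign_eq_one_iff_pos]
    nlinarith

theorem sign_affine (L : ℕ) (N N' r : ℤ) (hr : |r| ≤ L) (h : Int.sign N = Int.sign N') :
    Int.sign ((L + 1) * N + r) = Int.sign ((L + 1) * N' + r) := by
  by_cases h0 : N = 0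
  · rw [h0, Int.sign_zero] at h
    rw [h0, Int.sign_eq_zero_iff_zero.1 h.symm]
  · have h1 : N' ≠ 0 := by
      intro h1
      rw [h1, Int.sign_zero] at h
      exact h0 (Int.sign_eq_zero_iff_zero.1 h)
    rw [sign_of_dominant _ _ _ h0 (by linarith), sign_of_dominant _ _ _ h1 (by linarith), h]

/-- The adversary argument. -/
theorem adversary {K L : ℕ} {Q : Type*} [Fintype Q] {Ω : Type*} [MeasurableSpace Ω]
    (μ : Measure Ω) [IsProbabilityMeasure μ] (T : Ω → Tree ι) (hT : ∀ ω, (T ω).Allowed K L)
    (hmeas : ∀ x, MeasurableSet {ω | (T ω).eval x = true}) (δ : ℝ) (P : (ι → ℤ) → Prop)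
    (v : ι → ℤ) (u : Q → ι → ℤ) (crit : Q → Finset ι) (hinj : Function.Injective crit)
    (hsign : ∀ (q : Q) (c : ι → ℤ) (r : ℤ), (support c).card ≤ 3 → (∀ i, |c i| ≤ K) → |r| ≤ L →
      support c ≠ crit q → Int.sign (form c v + r) = Int.sign (form c (u q) + r))
    (hP : ∀ q, ¬ (P v ↔ P (u q)))
    (hv : μ.real {ω | ¬ ((T ω).eval v = true ↔ P v)} ≤ δ)
    (hu : ∀ q, μ.real {ω | ¬ ((T ω).eval (u q) = true ↔ P (u q))} ≤ δ) :
    ENNReal.ofReal ((1 - 2 * δ) * Fintype.card Q) ≤ ∫⁻ ω, ((T ω).cost v : ENNReal) ∂μ := by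
  classical
  set D : Q → Set Ω := fun q => {ω | (T ω).eval v ≠ (T ω).eval (u q)} with hD
  have hDmeas : ∀ q, MeasurableSet (D q) := by
    intro q
    have h1 := hmeas v
    have h2 := hmeas (u q)
    have : D q = ({ω | (T ω).eval v = true} \ {ω | (T ω).eval (u q) = true}) ∪
        ({ω | (T ω).eval (u q) = true} \ {ω | (T ω).eval v = true}) := by
      ext ω
      simp only [hD, Set.mem_ofPred_eq, Set.mem_union, Set.mem_sdiff]
      cases (T ω).eval v <;> cases (T ω).eval (u q) <;> simp
    rw [this]
    exact (h1.diff h2).union (h2.diff h1)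
  have hDreal : ∀ q, 1 - 2 * δ ≤ μ.real (D q) := by
    intro q
    have hsub : (D q)ᶜ ⊆ {ω | ¬ ((T ω).eval v = true ↔ P v)} ∪
        {ω | ¬ ((T ω).eval (u q) = true ↔ P (u q))} := by
      intro ω hω
      simp only [hD, Set.mem_compl_iff, Set.mem_ofPred_eq, not_not] at hω
      simp only [Set.mem_union, Set.mem_ofPred_eq]
      rw [hω]
      have := hP q
      tauto
    have h1 : μ.real (D q)ᶜ ≤ δ + δ :=
      (measureReal_mono hsub).trans ((measureReal_union_le _ _).trans (add_le_add hv (hu q)))
    have h2 : μ.real (D q) + μ.real (D q)ᶜ = 1 := by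
      rw [measureReal_add_measureReal_compl (hDmeas q)]
      simp
    linarith
  have hcount : ∀ ω, (Finset.univ.filter fun q : Q =>
      (T ω).eval v ≠ (T ω).eval (u q)).card ≤ (T ω).cost v := by
    intro ω
    rw [← (T ω).path_length]
    refine le_trans ?_ (List.toFinset_card_le _)
    refine Finset.card_le_card_of_injOn crit ?_ ?_
    · intro q hq
      rw [Finset.mem_coe, Finset.mem_filter] at hq
      rw [Finset.mem_coe, List.mem_toFinset]
      by_contra hcon
      exact hq.2 ((T ω).eval_eq (hT ω) _ _ (crit q) (hsign q) hcon)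
    · intro q _ q' _ h
      exact hinj h
  calc ENNReal.ofReal ((1 - 2 * δ) * Fintype.card Q)
      ≤ ENNReal.ofReal (∑ q : Q, μ.real (D q)) := by
        apply ENNReal.ofReal_le_ofReal
        have : ∑ _q : Q, (1 - 2 * δ) ≤ ∑ q : Q, μ.real (D q) :=
          Finset.sum_le_sum fun q _ => hDreal q
        refine le_trans (le_of_eq ?_) this
        rw [Finset.sum_const, Finset.card_univ, nsmul_eq_mul]
        ring
    _ = ∑ q : Q, μ (D q) := by
        rw [ENNReal.ofReal_sum_of_nonneg (fun q _ => measureReal_nonneg)]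
        exact Finset.sum_congr rfl fun q _ => by simp
    _ = ∫⁻ ω, ∑ q : Q, (D q).indicator (fun _ => (1 : ENNReal)) ω ∂μ := by
        rw [lintegral_finsetSum _ (fun q _ => measurable_const.indicator (hDmeas q))]
        refine Finset.sum_congr rfl fun q _ => ?_
        rw [lintegral_indicator (hDmeas q)]
        simp
    _ ≤ ∫⁻ ω, ((T ω).cost v : ENNReal) ∂μ := by
        refine lintegral_mono fun ω => ?_
        have h1 := hcount ω
        have h2 : ∑ q : Q, (D q).indicator (fun _ => (1 : ENNReal)) ω =
            ((Finset.univ.filter fun q : Q =>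
              (T ω).eval v ≠ (T ω).eval (u q)).card : ENNReal) := by
          rw [Finset.card_filter]
          push_cast
          refine Finset.sum_congr rfl fun q _ => ?_
          simp only [Set.indicator_apply, hD, Set.mem_ofPred_eq]
        simp only
        rw [h2]
        exact_mod_cast h1

/-! ### Generic points -/

/-- A nonzero affine form vanishes on few points of a grid. -/
theorem card_zeros (R : ℕ) (a : ι → ℤ) (x0 : ι) (hx0 : a x0 ≠ 0) (t : ℤ) :
    (Finset.univ.filter fun ξ : ι → Fin R => t + ∑ x, a x * (ξ x : ℤ) = 0).card ≤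
      R ^ (Fintype.card ι - 1) := by
  have hcard : Fintype.card ({x : ι // x ≠ x0} → Fin R) = R ^ (Fintype.card ι - 1) := by
    rw [Fintype.card_fun, Fintype.card_fin]
    congr 1
    rw [Fintype.card_subtype_compl]
    simp
  rw [← hcard, ← Finset.card_univ]
  refine Finset.card_le_card_of_injOn (fun ξ x => ξ x.1) (fun _ _ => Finset.mem_coe.2
    (Finset.mem_univ _)) ?_
  intro ξ hξ η hη h
  rw [Finset.mem_coe, Finset.mem_filter] at hξ hη
  have hne : ∀ x, x ≠ x0 → ξ x = η x := fun x hx => congrFun h ⟨x, hx⟩
  have h1 : ∑ x, a x * ((ξ x : ℤ) - (η x : ℤ)) = 0 := by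
    have : ∑ x, a x * ((ξ x : ℤ) - (η x : ℤ)) =
        ∑ x, a x * (ξ x : ℤ) - ∑ x, a x * (η x : ℤ) := by
      rw [← Finset.sum_sub_distrib]
      exact Finset.sum_congr rfl fun x _ => by ring
    rw [this]
    linarith [hξ.2, hη.2]
  rw [Finset.sum_eq_single x0 (fun x _ hx => by rw [hne x hx]; ring)
    (fun h => absurd (Finset.mem_univ _) h)] at h1
  have h2 : (ξ x0 : ℤ) - (η x0 : ℤ) = 0 := by
    rcases mul_eq_zero.1 h1 with h | h
    · exact absurd h hx0
    · exact h
  funext x
  by_cases hx : x = x0
  · rw [hx]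
    apply Fin.ext
    omega
  · exact hne x hx

/-- Finitely many nonzero affine forms have a common non-zero in a large grid. -/
theorem exists_generic {F : Type*} [Fintype F] (R : ℕ) (hR : Fintype.card F < R)
    (a : F → ι → ℤ) (t : F → ℤ) :
    ∃ ξ : ι → Fin R, ∀ f, a f ≠ 0 → t f + ∑ x, a f x * (ξ x : ℤ) ≠ 0 := by
  classical
  by_contra hcon
  push Not at hcon
  have hι : ∃ f : F, a f ≠ 0 := by
    have hRpos : 0 < R := by omega
    obtain ⟨f, hf, -⟩ := hcon (fun _ => ⟨0, hRpos⟩)
    exact ⟨f, hf⟩
  obtain ⟨f0, hf0⟩ := hι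
  obtain ⟨x00, -⟩ := Function.ne_iff.1 hf0
  have hcardpos : 0 < Fintype.card ι := Fintype.card_pos_iff.2 ⟨x00⟩
  have hsub : (Finset.univ : Finset (ι → Fin R)) ⊆
      (Finset.univ.filter fun f : F => a f ≠ 0).biUnion fun f =>
        Finset.univ.filter fun ξ : ι → Fin R => t f + ∑ x, a f x * (ξ x : ℤ) = 0 := by
    intro ξ _
    obtain ⟨f, hf, hz⟩ := hcon ξ
    rw [Finset.mem_biUnion]
    exact ⟨f, Finset.mem_filter.2 ⟨Finset.mem_univ _, hf⟩,
      Finset.mem_filter.2 ⟨Finset.mem_univ _, hz⟩⟩
  have h1 := (Finset.card_le_card hsub).trans (Finset.card_biUnion_le (s :=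
    Finset.univ.filter fun f : F => a f ≠ 0))
  have h2 : ∑ f ∈ Finset.univ.filter (fun f : F => a f ≠ 0),
      (Finset.univ.filter fun ξ : ι → Fin R => t f + ∑ x, a f x * (ξ x : ℤ) = 0).card ≤
      Fintype.card F * R ^ (Fintype.card ι - 1) := by
    refine (Finset.sum_le_card_nsmul _ _ (R ^ (Fintype.card ι - 1)) ?_).trans ?_
    · intro f hf
      rw [Finset.mem_filter] at hf
      obtain ⟨x0, hx0⟩ := Function.ne_iff.1 hf.2
      exact card_zeros R (a f) x0 hx0 (t f)
    · rw [smul_eq_mul]
      exact Nat.mul_le_mul_right _ (Finset.card_le_univ _)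
  rw [Finset.card_univ, Fintype.card_fun, Fintype.card_fin] at h1
  have h3 : R ^ Fintype.card ι = R * R ^ (Fintype.card ι - 1) := by
    rw [← pow_succ']
    congr 1
    omega
  have h4 : 0 < R ^ (Fintype.card ι - 1) := by
    apply pow_pos
    omega
  have h5 : Fintype.card F * R ^ (Fintype.card ι - 1) < R * R ^ (Fintype.card ι - 1) :=
    Nat.mul_lt_mul_of_pos_right hR h4
  omega

end Pool.Agent.H636R2.Tests
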